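import Mathlib

set_option autoImplicit false

namespace Pool.Agent.Results.MP_01d095_an.HilbertSum

section Defs

variable {X : Type*} [NormedAddCommGroup X] [NormedSpace ℝ X]

/-- The numbers `|φ (T x)|`, where `‖x‖ = ‖φ‖ = φ x = 1`. -/
def numVals (T : X →L[ℝ] X) : Set ℝ :=
  {r | ∃ (x : X) (φ : X →L[ℝ] ℝ), ‖x‖ = 1 ∧ ‖φ‖ = 1 ∧ φ x = 1 ∧ r = |φ (T x)|}

/-- The numerical radius `v(T)`. -/
noncomputable def numRadius (T : X →L[ℝ] X) : ℝ := sSup (numVals T)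

variable (X) in
/-- The skew-hermitian operators `Z(X)`, those of numerical radius zero. -/
def skew : Set (X →L[ℝ] X) := {S | numRadius S = 0}

/-- The quotient norm `‖T + Z(X)‖`. -/
noncomputable def quotNorm (T : X →L[ℝ] X) : ℝ := sInf ((fun S => ‖T - S‖) '' skew X)

variable (X) in
/-- The second numerical index `n'(X)`: the largest `k ≥ 0` with `k ‖T + Z(X)‖ ≤ v(T)` for all
bounded operators `T` (see `isGreatest_secondIndex`: the supremum is attained). -/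
noncomputable def secondIndex : ℝ :=
  sSup {k : ℝ | 0 ≤ k ∧ ∀ T : X →L[ℝ] X, k * quotNorm T ≤ numRadius T}

end Defs

section Basic

variable {X : Type*} [NormedAddCommGroup X] [NormedSpace ℝ X]

theorem le_norm_of_mem {T : X →L[ℝ] X} {r : ℝ} (h : r ∈ numVals T) : r ≤ ‖T‖ := by
  obtain ⟨x, φ, hx, hφ, _, rfl⟩ := h
  calc |φ (T x)| = ‖φ (T x)‖ := (Real.norm_eq_abs _).symm
    _ ≤ ‖φ‖ * ‖T x‖ := φ.le_opNorm _
    _ ≤ ‖φ‖ * (‖T‖ * ‖x‖) := mul_le_mul_of_nonneg_left (T.le_opNorm x) (norm_nonneg _)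
    _ = ‖T‖ := by rw [hx, hφ]; ring

theorem bdd_numVals (T : X →L[ℝ] X) : BddAbove (numVals T) := ⟨‖T‖, fun _ h => le_norm_of_mem h⟩

theorem le_numRadius (T : X →L[ℝ] X) {x : X} {φ : X →L[ℝ] ℝ} (hx : ‖x‖ = 1) (hφ : ‖φ‖ = 1)
    (h : φ x = 1) : |φ (T x)| ≤ numRadius T :=
  le_csSup (bdd_numVals T) ⟨x, φ, hx, hφ, h, rfl⟩

theorem numRadius_nonneg (T : X →L[ℝ] X) : 0 ≤ numRadius T := by
  apply Real.sSup_nonneg
  rintro _ ⟨x, φ, _, _, _, rfl⟩
  exact abs_nonneg _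

theorem numRadius_le {T : X →L[ℝ] X} {M : ℝ} (hM : 0 ≤ M)
    (h : ∀ (x : X) (φ : X →L[ℝ] ℝ), ‖x‖ = 1 → ‖φ‖ = 1 → φ x = 1 → |φ (T x)| ≤ M) :
    numRadius T ≤ M := by
  apply Real.sSup_le _ hM
  rintro _ ⟨x, φ, h1, h2, h3, rfl⟩
  exact h x φ h1 h2 h3

theorem mem_skew {S : X →L[ℝ] X} : S ∈ skew X ↔
    ∀ (x : X) (φ : X →L[ℝ] ℝ), ‖x‖ = 1 → ‖φ‖ = 1 → φ x = 1 → φ (S x) = 0 := by
  constructor
  · intro h x φ h1 h2 h3
    have h4 := le_numRadius S h1 h2 h3
    have h5 : numRadius S = 0 := h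
    rw [h5] at h4
    exact abs_eq_zero.1 (le_antisymm h4 (abs_nonneg _))
  · intro h
    refine le_antisymm (numRadius_le le_rfl fun x φ h1 h2 h3 => ?_) (numRadius_nonneg S)
    rw [h x φ h1 h2 h3, abs_zero]

theorem zero_mem_skew : (0 : X →L[ℝ] X) ∈ skew X := by
  rw [mem_skew]; intro x φ _ _ _; simp

theorem bddBelow_quot (T : X →L[ℝ] X) : BddBelow ((fun S => ‖T - S‖) '' skew X) :=
  ⟨0, by rintro _ ⟨S, _, rfl⟩; exact norm_nonneg _⟩

theorem nonempty_quot (T : X →L[ℝ] X) : ((fun S => ‖T - S‖) '' skew X).Nonempty :=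
  ⟨_, 0, zero_mem_skew, rfl⟩

theorem quotNorm_le (T : X →L[ℝ] X) {S : X →L[ℝ] X} (hS : S ∈ skew X) : quotNorm T ≤ ‖T - S‖ :=
  csInf_le (bddBelow_quot T) ⟨S, hS, rfl⟩

theorem quotNorm_nonneg (T : X →L[ℝ] X) : 0 ≤ quotNorm T := by
  apply Real.sInf_nonneg
  rintro _ ⟨S, _, rfl⟩
  exact norm_nonneg _

theorem one_le_quotNorm_id [Nontrivial X] : 1 ≤ quotNorm (ContinuousLinearMap.id ℝ X) := by
  apply le_csInf (nonempty_quot _)
  rintro _ ⟨S, hS, rfl⟩
  obtain ⟨x, hx⟩ := exists_norm_eq X (zero_le_one : (0 : ℝ) ≤ 1)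
  obtain ⟨φ, hφ, hφx⟩ := exists_dual_vector ℝ x (by rw [← norm_ne_zero_iff, hx]; norm_num)
  have hφx' : φ x = 1 := by rw [hφx, hx]; rfl
  have h1 := (mem_skew.1 hS) x φ hx hφ hφx'
  calc (1 : ℝ) = |φ ((ContinuousLinearMap.id ℝ X - S) x)| := by
        rw [sub_apply_aux, map_sub, h1, hφx']; simp
    _ ≤ ‖ContinuousLinearMap.id ℝ X - S‖ := le_norm_of_mem ⟨x, φ, hx, hφ, hφx', rfl⟩
where
  sub_apply_aux {S : X →L[ℝ] X} {x : X} : (ContinuousLinearMap.id ℝ X - S) x = x - S x := rfl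

theorem numRadius_id_le : numRadius (ContinuousLinearMap.id ℝ X) ≤ 1 := by
  apply numRadius_le zero_le_one
  intro x φ _ _ h
  change |φ x| ≤ 1
  rw [h, abs_one]

theorem bddAbove_index [Nontrivial X] :
    BddAbove {k : ℝ | 0 ≤ k ∧ ∀ T : X →L[ℝ] X, k * quotNorm T ≤ numRadius T} := by
  refine ⟨1, fun k hk => ?_⟩
  have h1 := hk.2 (ContinuousLinearMap.id ℝ X)
  have h2 := numRadius_id_le (X := X)
  have h3 := one_le_quotNorm_id (X := X)
  have h4 := hk.1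
  nlinarith

theorem zero_mem_index :
    (0 : ℝ) ∈ {k : ℝ | 0 ≤ k ∧ ∀ T : X →L[ℝ] X, k * quotNorm T ≤ numRadius T} :=
  ⟨le_rfl, fun T => by rw [zero_mul]; exact numRadius_nonneg T⟩

/-- The supremum defining the second numerical index is a maximum. -/
theorem isGreatest_secondIndex [Nontrivial X] :
    IsGreatest {k : ℝ | 0 ≤ k ∧ ∀ T : X →L[ℝ] X, k * quotNorm T ≤ numRadius T}
      (secondIndex X) := by
  refine ⟨⟨le_csSup bddAbove_index zero_mem_index, fun T => ?_⟩,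
    fun k hk => le_csSup bddAbove_index hk⟩
  rcases (quotNorm_nonneg T).eq_or_lt with h | h
  · rw [← h, mul_zero]; exact numRadius_nonneg T
  · rw [← le_div_iff₀ h]
    apply csSup_le ⟨0, zero_mem_index⟩
    intro k hk
    rw [le_div_iff₀ h]
    exact hk.2 T

/-- Comparison with a summand of an absolute sum. -/
theorem secondIndex_le_of_summand {Y : Type*} [NormedAddCommGroup Y] [NormedSpace ℝ Y]
    [Nontrivial Y] (i : Y →L[ℝ] X) (q : X →L[ℝ] Y) (hqi : ∀ y, q (i y) = y)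
    (hi : ∀ y, ‖i y‖ = ‖y‖) (hq : ∀ x, ‖q x‖ ≤ ‖x‖)
    (habs : ∀ (x : X) (z : Y), ‖z‖ = ‖q x‖ → ‖x - i (q x) + i z‖ = ‖x‖) :
    secondIndex X ≤ secondIndex Y := by
  apply csSup_le_csSup bddAbove_index ⟨0, zero_mem_index⟩
  rintro k ⟨hk0, hk⟩
  refine ⟨hk0, fun T => ?_⟩
  -- the numerical radius of the extension
  have h1 : numRadius (i.comp (T.comp q)) ≤ numRadius T := by
    apply numRadius_le (numRadius_nonneg T)
    intro x φ hx hφ hφx
    change |φ (i (T (q x)))| ≤ _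
    set ψ : Y →L[ℝ] ℝ := φ.comp i with hψ
    have hψn : ‖ψ‖ ≤ 1 := by
      apply ContinuousLinearMap.opNorm_le_bound _ zero_le_one
      intro y
      calc ‖φ (i y)‖ ≤ ‖φ‖ * ‖i y‖ := φ.le_opNorm _
        _ = 1 * ‖y‖ := by rw [hφ, hi]
    change |ψ (T (q x))| ≤ _
    by_cases hy : q x = 0
    · rw [hy]; simp [numRadius_nonneg]
    by_cases hψ0 : ψ = 0
    · rw [hψ0]; simp [numRadius_nonneg]
    have hyn : 0 < ‖q x‖ := norm_pos_iff.2 hy
    have hψn0 : 0 < ‖ψ‖ := norm_pos_iff.2 hψ0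
    have key : ∀ z : Y, ‖z‖ = ‖q x‖ → ψ z ≤ ψ (q x) := by
      intro z hz
      have h2 := habs x z hz
      have h3 : φ (x - i (q x) + i z) ≤ 1 := by
        calc φ (x - i (q x) + i z) ≤ ‖φ (x - i (q x) + i z)‖ := le_abs_self _
          _ ≤ ‖φ‖ * ‖x - i (q x) + i z‖ := φ.le_opNorm _
          _ = 1 := by rw [h2, hφ, hx, one_mul]
      rw [map_add, map_sub, hφx] at h3
      change φ (i z) ≤ φ (i (q x))
      linarith
    have hnorm : ‖ψ‖ ≤ ψ (q x) / ‖q x‖ := by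
      have h0 : 0 ≤ ψ (q x) := by
        have := key (-(q x)) (norm_neg _)
        rw [map_neg] at this
        linarith
      apply ContinuousLinearMap.opNorm_le_bound _ (by positivity)
      intro z
      by_cases hz : z = 0
      · rw [hz]; simp
      have hzn : 0 < ‖z‖ := norm_pos_iff.2 hz
      have hz' : ∀ s : ℝ, |s| = 1 → s * ψ z * (‖q x‖ / ‖z‖) ≤ ψ (q x) := by
        intro s hs
        have := key ((s * (‖q x‖ / ‖z‖)) • z) (by
          rw [norm_smul, Real.norm_eq_abs, abs_mul, hs, one_mul, abs_of_pos (by positivity)]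
          field_simp)
        rw [map_smul, smul_eq_mul] at this
        linarith
      have h5 : |ψ z| * (‖q x‖ / ‖z‖) ≤ ψ (q x) := by
        rcases abs_cases (ψ z) with ⟨h, _⟩ | ⟨h, _⟩
        · have := hz' 1 (by simp); rw [h]; linarith
        · have := hz' (-1) (by simp); rw [h]; linarith
      rw [Real.norm_eq_abs, div_mul_eq_mul_div, le_div_iff₀ hyn]
      rw [← mul_div_assoc, div_le_iff₀ hzn] at h5
      exact h5
    have heq : ψ (q x) = ‖ψ‖ * ‖q x‖ := by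
      apply le_antisymm
      · exact (le_abs_self _).trans (ψ.le_opNorm _)
      · rwa [le_div_iff₀ hyn] at hnorm
    have h6 := le_numRadius T (x := ‖q x‖⁻¹ • q x) (φ := ‖ψ‖⁻¹ • ψ)
      (by rw [norm_smul, norm_inv, norm_norm, inv_mul_cancel₀ hyn.ne'])
      (by rw [norm_smul, norm_inv, norm_norm, inv_mul_cancel₀ hψn0.ne'])
      (by
        change ‖ψ‖⁻¹ * ψ (‖q x‖⁻¹ • q x) = 1
        rw [map_smul, heq, smul_eq_mul]
        field_simp)
    have h7 : |(‖ψ‖⁻¹ • ψ) (T (‖q x‖⁻¹ • q x))| = |ψ (T (q x))| / (‖ψ‖ * ‖q x‖) := by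
      change |‖ψ‖⁻¹ * ψ (T (‖q x‖⁻¹ • q x))| = _
      rw [map_smul, map_smul, smul_eq_mul, abs_mul, abs_mul, abs_of_pos (inv_pos.2 hψn0),
        abs_of_pos (inv_pos.2 hyn)]
      field_simp
    rw [h7, div_le_iff₀ (by positivity)] at h6
    have h8 : ‖ψ‖ * ‖q x‖ ≤ 1 := by
      have := hq x
      rw [hx] at this
      nlinarith
    have h9 := numRadius_nonneg T
    nlinarith
  -- the quotient norm of the extension
  have h2 : quotNorm T ≤ quotNorm (i.comp (T.comp q)) := by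
    apply le_csInf (nonempty_quot _)
    rintro _ ⟨S, hS, rfl⟩
    have hS' : q.comp (S.comp i) ∈ skew Y := by
      rw [mem_skew]
      intro y ψ hy hψ hψy
      have hψq : ‖ψ.comp q‖ = 1 := by
        apply le_antisymm
        · apply ContinuousLinearMap.opNorm_le_bound _ zero_le_one
          intro x
          calc ‖ψ (q x)‖ ≤ ‖ψ‖ * ‖q x‖ := ψ.le_opNorm _
            _ ≤ 1 * ‖x‖ := by rw [hψ, one_mul, one_mul]; exact hq x
        · have := (ψ.comp q).le_opNorm (i y)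
          rw [hi, hy, mul_one] at this
          change ‖ψ (q (i y))‖ ≤ _ at this
          rw [hqi, hψy, norm_one] at this
          exact this
      exact (mem_skew.1 hS) (i y) (ψ.comp q) (by rw [hi, hy]) hψq
        (by change ψ (q (i y)) = 1; rw [hqi, hψy])
    refine (quotNorm_le T hS').trans ?_
    apply ContinuousLinearMap.opNorm_le_bound _ (norm_nonneg _)
    intro y
    have h3 : (T - q.comp (S.comp i)) y = q ((i.comp (T.comp q) - S) (i y)) := by
      change T y - q (S (i y)) = q (i (T (q (i y))) - S (i y))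
      rw [map_sub, hqi, hqi]
    rw [h3]
    calc ‖q ((i.comp (T.comp q) - S) (i y))‖ ≤ ‖(i.comp (T.comp q) - S) (i y)‖ := hq _
      _ ≤ ‖i.comp (T.comp q) - S‖ * ‖i y‖ := ContinuousLinearMap.le_opNorm _ _
      _ = _ := by rw [hi]
  calc k * quotNorm T ≤ k * quotNorm (i.comp (T.comp q)) := mul_le_mul_of_nonneg_left h2 hk0
    _ ≤ numRadius (i.comp (T.comp q)) := hk _
    _ ≤ numRadius T := h1

end Basic

/-- For all nonzero real Banach spaces `Y` and `W`, `n'(Y ⊕₂ W) ≤ min (n'(Y)) (n'(W))`. -/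
theorem result (Y W : Type*) [NormedAddCommGroup Y] [NormedSpace ℝ Y] [CompleteSpace Y]
    [Nontrivial Y] [NormedAddCommGroup W] [NormedSpace ℝ W] [CompleteSpace W] [Nontrivial W] :
    secondIndex (WithLp 2 (Y × W)) ≤ min (secondIndex Y) (secondIndex W) := by
  apply le_min
  · let e := (WithLp.prodContinuousLinearEquiv 2 ℝ Y W).symm
    refine secondIndex_le_of_summand
      ((e : (Y × W) →L[ℝ] WithLp 2 (Y × W)).comp (ContinuousLinearMap.inl ℝ Y W))
      (WithLp.fstL 2 ℝ Y W) (fun y => rfl) (fun y => ?_) (fun x => ?_) (fun x z hz => ?_)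
    · exact WithLp.norm_toLp_fst 2 Y W y
    · exact WithLp.norm_fst_le _ x
    · have h1 : x - WithLp.toLp 2 (x.fst, 0) + WithLp.toLp 2 (z, 0) = WithLp.toLp 2 (z, x.snd) := by
        apply (WithLp.equiv 2 (Y × W)).injective
        ext <;> simp
      change ‖x - WithLp.toLp 2 (x.fst, (0 : W)) + WithLp.toLp 2 (z, (0 : W))‖ = ‖x‖
      rw [h1, WithLp.prod_norm_eq_of_L2, WithLp.prod_norm_eq_of_L2]
      change √(‖z‖ ^ 2 + ‖x.snd‖ ^ 2) = _
      rw [hz]; rfl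
  · let e := (WithLp.prodContinuousLinearEquiv 2 ℝ Y W).symm
    refine secondIndex_le_of_summand
      ((e : (Y × W) →L[ℝ] WithLp 2 (Y × W)).comp (ContinuousLinearMap.inr ℝ Y W))
      (WithLp.sndL 2 ℝ Y W) (fun y => rfl) (fun y => ?_) (fun x => ?_) (fun x z hz => ?_)
    · exact WithLp.norm_toLp_snd 2 Y W y
    · exact WithLp.norm_snd_le _ x
    · have h1 : x - WithLp.toLp 2 (0, x.snd) + WithLp.toLp 2 (0, z) = WithLp.toLp 2 (x.fst, z) := by
        apply (WithLp.equiv 2 (Y × W)).injective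
        ext <;> simp
      change ‖x - WithLp.toLp 2 ((0 : Y), x.snd) + WithLp.toLp 2 ((0 : Y), z)‖ = ‖x‖
      rw [h1, WithLp.prod_norm_eq_of_L2, WithLp.prod_norm_eq_of_L2]
      change √(‖x.fst‖ ^ 2 + ‖z‖ ^ 2) = _
      rw [hz]; rfl

end Pool.Agent.Results.MP_01d095_an.HilbertSum
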